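import Mathlib
import Pool.Agent.H447R2.ML.R3

set_option autoImplicit false

/-!
# Rough parts at the exponents `2 ^ m`: phases, means and pairs
-/

namespace Pool.Agent.U155.Fer

open Filter Topology MeasureTheory
open Pool.Agent.H305R2 (roughPart ff measurable_ff ff_nonneg ff_le_one NN)
open Pool.Agent.H447R2.ML (Sh mean_shift pair_bound_sh)

/-- the slope -/
noncomputable def a : ℝ := Real.log 2 / 4

lemma a_pos : 0 < a := by
  unfold a
  have := Real.log_pos (show (1 : ℝ) < 2 by norm_num)
  positivity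

/-- the phase -/
noncomputable def y (p : ℕ) (t : ℝ) : ℝ := Real.log (Real.exp (a * p + t) + 1)

/-- its derivative -/
noncomputable def y' (p : ℕ) (t : ℝ) : ℝ := Real.exp (a * p + t) / (Real.exp (a * p + t) + 1)

lemma measurable_y (p : ℕ) : Measurable (y p) := by
  unfold y
  fun_prop

lemma small_ev (a0 : ℝ) : ∀ᶠ p : ℕ in atTop, 0 < p ∧ Real.exp (-(a * p + a0)) ≤ 1 / p := by
  have h1 : Tendsto (fun x : ℝ => x * Real.exp (-(a * x))) atTop (𝓝 0) := by
    have h2 := Real.tendsto_pow_mul_exp_neg_atTop_nhds_zero 1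
    have h3 : Tendsto (fun x : ℝ => a * x) atTop atTop := tendsto_id.const_mul_atTop a_pos
    have h4 := (h2.comp h3).const_mul a⁻¹
    rw [mul_zero] at h4
    refine h4.congr fun x => ?_
    simp only [Function.comp_apply, pow_one]
    have := a_pos.ne'
    field_simp
  have h5 := h1.comp (tendsto_natCast_atTop_atTop (R := ℝ))
  have h6 := h5.eventually_lt_const (show (0 : ℝ) < Real.exp a0 from Real.exp_pos _)
  filter_upwards [h6, eventually_gt_atTop 0] with p hp hp0
  refine ⟨hp0, ?_⟩
  have hp1 : (0 : ℝ) < p := by exact_mod_cast hp0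
  rw [le_div_iff₀ hp1]
  have e : Real.exp (-(a * p + a0)) = Real.exp (-(a * p)) * Real.exp (-a0) := by
    rw [← Real.exp_add]; ring_nf
  rw [e]
  simp only [Function.comp_apply] at hp
  have h7 : Real.exp a0 * Real.exp (-a0) = 1 := by rw [← Real.exp_add]; simp
  have h8 := Real.exp_pos (-a0)
  nlinarith

lemma sh_ev (a0 a1 : ℝ) : ∀ᶠ p : ℕ in atTop, Sh a a0 a1 p (y p) (y' p) := by
  filter_upwards [small_ev a0] with p hp
  obtain ⟨hp0, hp⟩ := hp
  have hpos : ∀ t : ℝ, 0 < Real.exp (a * p + t) := fun t => Real.exp_pos _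
  have hle : ∀ t ∈ Set.Icc a0 a1, Real.exp (-(a * p + t)) ≤ 1 / p := by
    intro t ht
    refine le_trans (Real.exp_le_exp.2 ?_) hp
    linarith [ht.1]
  refine ⟨fun t ht => ?_, fun t ht => ?_, fun t ht => ?_⟩
  · have e : y p t - (a * p + t) = Real.log (1 + Real.exp (-(a * p + t))) := by
      unfold y
      have h1 : Real.exp (a * p + t) + 1 = Real.exp (a * p + t) * (1 + Real.exp (-(a * p + t))) := by
        rw [mul_add, ← Real.exp_add]; simp
      rw [h1, Real.log_mul (hpos t).ne' (by positivity), Real.log_exp]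
      ring
    rw [e, abs_of_nonneg (Real.log_nonneg (by linarith [Real.exp_pos (-(a * p + t))]))]
    have h2 := Real.log_le_sub_one_of_pos (show 0 < 1 + Real.exp (-(a * p + t)) by positivity)
    linarith [hle t ht]
  · unfold y y'
    have h1 : HasDerivAt (fun t : ℝ => Real.exp (a * p + t) + 1) (Real.exp (a * p + t)) t := by
      have h2 : HasDerivAt (fun t : ℝ => a * p + t) 1 t := (hasDerivAt_id t).const_add _
      simpa using (h2.exp).add_const (1 : ℝ)
    exact h1.log (by positivity)
  · have e : y' p t - 1 = -(1 / (Real.exp (a * p + t) + 1)) := by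
      unfold y'
      have := hpos t
      field_simp
      ring
    rw [e, abs_neg, abs_of_nonneg (by positivity)]
    refine le_trans ?_ (hle t ht)
    rw [Real.exp_neg, ← one_div]
    exact one_div_le_one_div_of_le (hpos t) (by linarith)

/-- the indicator of the index `m` -/
noncomputable def f (m : ℕ) (u : ℝ) : ℝ := ff (2 ^ (m + 2)) (y (2 ^ (m + 2)) u)

lemma measurable_f (m : ℕ) : Measurable (f m) := (measurable_ff _).comp (measurable_y _)

lemma f_nonneg (m : ℕ) (u : ℝ) : 0 ≤ f m u := ff_nonneg _ _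

lemma f_le_one (m : ℕ) (u : ℝ) : f m u ≤ 1 := ff_le_one _ _

lemma f_int (m : ℕ) (s t : ℝ) : IntegrableOn (f m) (Set.Ioc s t) := by
  refine Measure.integrableOn_of_bounded (M := 1) (by simp) (measurable_f m).aestronglyMeasurable ?_
  refine Eventually.of_forall fun u => ?_
  rw [Real.norm_of_nonneg (f_nonneg _ _)]
  exact f_le_one _ _

/-- the weight -/
noncomputable def w (m : ℕ) : ℝ := (m + 2) / 2 ^ m

lemma w_pos (m : ℕ) : 0 < w m := by unfold w; positivity

lemma tend_two : Tendsto (fun m : ℕ => 2 ^ (m + 2)) atTop atTop := by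
  have h := tendsto_pow_atTop_atTop_of_one_lt (show 1 < 2 by norm_num)
  exact h.comp (tendsto_add_atTop_nat 2)

lemma log_two_pow (m : ℕ) : Real.log ((2 ^ (m + 2) : ℕ) : ℝ) = (m + 2) * Real.log 2 := by
  push_cast
  rw [Real.log_pow]
  push_cast
  ring

lemma mean_one {s t : ℝ} (hst : s < t) (hle : t - s ≤ 1) :
    Tendsto (fun m : ℕ => (∫ u in Set.Ioc s t, f m u) / w m) atTop
      (𝓝 (Real.exp Real.eulerMascheroniConstant * (t - s))) := by
  have h := mean_shift a_pos (sh_ev s t) le_rfl hst le_rfl hle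
  have h2 := (h.comp tend_two).const_mul a
  have hl : 0 < Real.log 2 := Real.log_pos (by norm_num)
  have e1 : a * (Real.exp Real.eulerMascheroniConstant * (t - s) / a) =
      Real.exp Real.eulerMascheroniConstant * (t - s) := by
    have := a_pos.ne'
    field_simp
  rw [e1] at h2
  refine h2.congr fun m => ?_
  simp only [Function.comp_apply]
  rw [log_two_pow]
  unfold w a f
  push_cast
  have h3 : (0 : ℝ) < m + 2 := by positivity
  rw [pow_add]
  field_simp
  ring

lemma mean_all {s t : ℝ} (hst : s < t) :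
    Tendsto (fun m : ℕ => (∫ u in Set.Ioc s t, f m u) / w m) atTop
      (𝓝 (Real.exp Real.eulerMascheroniConstant * (t - s))) := by
  have key : ∀ n : ℕ, ∀ s t : ℝ, s < t → t - s ≤ n + 1 →
      Tendsto (fun m : ℕ => (∫ u in Set.Ioc s t, f m u) / w m) atTop
      (𝓝 (Real.exp Real.eulerMascheroniConstant * (t - s))) := by
    intro n
    induction n with
    | zero =>
      intro s t h1 h2
      exact mean_one h1 (by simpa using h2)
    | succ n ih =>
      intro s t h1 h2
      rcases le_or_gt (t - s) 1 with h3 | h3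
      · exact mean_one h1 h3
      · have h4 := mean_one (s := s) (t := s + 1) (by linarith) (by linarith)
        have h5 := ih (s + 1) t (by linarith) (by push_cast at h2; linarith)
        have h6 := h4.add h5
        have e : Real.exp Real.eulerMascheroniConstant * (s + 1 - s) +
            Real.exp Real.eulerMascheroniConstant * (t - (s + 1)) =
            Real.exp Real.eulerMascheroniConstant * (t - s) := by ring
        rw [e] at h6
        refine h6.congr fun m => ?_
        rw [← add_div]
        congr 1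
        rw [← Set.Ioc_union_Ioc_eq_Ioc (show s ≤ s + 1 by linarith) (show s + 1 ≤ t by linarith)]
        rw [setIntegral_union _ measurableSet_Ioc (f_int _ _ _) (f_int _ _ _)]
        exact Set.Ioc_disjoint_Ioc_of_le le_rfl
  obtain ⟨n, hn⟩ := exists_nat_ge (t - s)
  exact key n s t hst (by linarith)

lemma pair_bound (s t : ℝ) (hst : s < t) : ∃ K : ℝ, 0 < K ∧ ∃ M : ℕ, ∀ m ≥ M, ∀ n > m,
    ∫ u in Set.Ioc s t, f m u * f n u ≤ K * (w m * w n) := by
  obtain ⟨K, hK, P, hP⟩ := pair_bound_sh (a := a) (a0 := s - 1) (a1 := t + 1) (b0 := s) (b1 := t)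
    a_pos (by linarith) (by linarith)
  have hl : 0 < Real.log 2 := Real.log_pos (by norm_num)
  have hgap : ∀ᶠ q : ℕ in atTop, 64 / a * (Real.log q * Real.log (Real.log q)) ≤ q / 2 := by
    have hA : 0 < 64 / a := div_pos (by norm_num) a_pos
    have h1 : ∀ᶠ x : ℝ in atTop, 64 / a * (Real.log x * Real.log (Real.log x)) ≤ x / 2 := by
      have h2 : ∀ᶠ x : ℝ in atTop, (Real.log x) ^ 2 ≤ 1 / (2 * (64 / a)) * x := by
        have h3 := (Real.isLittleO_pow_log_id_atTop (n := 2)).bound
          (show (0 : ℝ) < 1 / (2 * (64 / a)) by positivity)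
        filter_upwards [h3, eventually_gt_atTop 0] with x hx hx0
        rw [Real.norm_eq_abs, Real.norm_eq_abs, abs_of_nonneg (by positivity)] at hx
        simpa [abs_of_pos hx0] using hx
      filter_upwards [h2, Real.tendsto_log_atTop.eventually_ge_atTop 1, eventually_gt_atTop 0]
        with x hx hx1 hx0
      have h4 : Real.log (Real.log x) ≤ Real.log x := by
        have := Real.log_le_sub_one_of_pos (show 0 < Real.log x by linarith)
        linarith
      calc 64 / a * (Real.log x * Real.log (Real.log x)) ≤ 64 / a * (Real.log x * Real.log x) := by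
            gcongr
        _ = 64 / a * (Real.log x) ^ 2 := by ring
        _ ≤ 64 / a * (1 / (2 * (64 / a)) * x) := by gcongr
        _ = x / 2 := by
          have := a_pos.ne'
          field_simp
    exact tendsto_natCast_atTop_atTop.eventually h1
  have hall := tend_two.eventually (hgap.and ((sh_ev (s - 1) (t + 1)).and (eventually_ge_atTop P)))
  obtain ⟨M, hM⟩ := eventually_atTop.1 hall
  refine ⟨K * ((t - s) + 1) * (Real.log 2 / 4) * (2 * (Real.log 2 / 4)), by
    have : 0 < t - s + 1 := by linarith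
    positivity, M, fun m hm n hn => ?_⟩
  obtain ⟨h1, h2, h3⟩ := hM m hm
  obtain ⟨h1', h2', h3'⟩ := hM n (by omega)
  have hlt : 2 ^ (m + 2) < 2 ^ (n + 2) := Nat.pow_lt_pow_right (by norm_num) (by omega)
  have h2m : 2 * 2 ^ (m + 2) ≤ 2 ^ (n + 2) := by
    calc 2 * 2 ^ (m + 2) = 2 ^ (m + 2 + 1) := by ring
      _ ≤ 2 ^ (n + 2) := Nat.pow_le_pow_right (by norm_num) (by omega)
  have h2r : 2 * ((2 ^ (m + 2) : ℕ) : ℝ) ≤ ((2 ^ (n + 2) : ℕ) : ℝ) := by exact_mod_cast h2m
  have h4 := hP (2 ^ (m + 2)) (2 ^ (n + 2)) h3 hlt _ _ _ _ h2 h2' (by linarith) s t le_rfl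
    hst.le le_rfl
  refine h4.trans ?_
  rw [log_two_pow, log_two_pow]
  set A : ℝ := ((2 ^ (m + 2) : ℕ) : ℝ) with hA
  set B : ℝ := ((2 ^ (n + 2) : ℕ) : ℝ) with hB
  have hA1 : 1 ≤ A := by rw [hA]; exact_mod_cast Nat.one_le_two_pow
  have hA0 : 0 < A := by linarith
  have hB0 : 0 < B := by linarith
  have e1 : w m = 4 * ((m + 2) / A) := by
    unfold w; rw [hA]; push_cast; rw [pow_add]; field_simp; ring
  have e2 : w n = 4 * ((n + 2) / B) := by
    unfold w; rw [hB]; push_cast; rw [pow_add]; field_simp; ring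
  have h5 : (t - s) + 1 / A ≤ (t - s) + 1 := by
    have : 1 / A ≤ 1 := by rw [div_le_one hA0]; exact hA1
    linarith
  have h6 : (n + 2) * Real.log 2 / (B - A) ≤ 2 * ((n + 2) * Real.log 2 / B) := by
    calc (n + 2) * Real.log 2 / (B - A) ≤ (n + 2) * Real.log 2 / (B / 2) :=
          div_le_div_of_nonneg_left (by positivity) (by positivity) (by linarith)
      _ = _ := by field_simp
  have h7 : 0 ≤ (n + 2) * Real.log 2 / (B - A) := div_nonneg (by positivity) (by linarith)
  have h8 : 0 ≤ (t - s) + 1 / A := by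
    have : 0 ≤ 1 / A := by positivity
    linarith
  calc K * ((t - s) + 1 / A) * ((m + 2) * Real.log 2 / A) * ((n + 2) * Real.log 2 / (B - A)) ≤
        K * ((t - s) + 1) * ((m + 2) * Real.log 2 / A) * (2 * ((n + 2) * Real.log 2 / B)) := by
        gcongr
    _ = _ := by rw [e1, e2]; ring

end Pool.Agent.U155.Fer
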