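import Mathlib
import Pool.Agent.U155.Fer.A

set_option autoImplicit false

/-!
# The measure of the union of the events
-/

namespace Pool.Agent.U155.Fer

open Filter Topology MeasureTheory

/-- the tail sums of the weights -/
noncomputable def c (N : ℕ) : ℝ := (N + 3) * 2 / 2 ^ N

lemma c_pos (N : ℕ) : 0 < c N := by unfold c; positivity

lemma w_eq (m : ℕ) : w m = c m - c (m + 1) := by
  unfold w c
  push_cast
  rw [pow_succ]
  field_simp
  ring

lemma sum_w (N n : ℕ) : ∑ k ∈ Finset.range n, w (N + k) = c N - c (N + n) := by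
  induction n with
  | zero => simp
  | succ n ih => rw [Finset.sum_range_succ, ih, w_eq]; ring_nf

lemma c_tendsto : Tendsto c atTop (𝓝 0) := by
  have h1 : Tendsto (fun n : ℕ => (n : ℝ) / 2 ^ n) atTop (𝓝 0) := by
    have := tendsto_self_mul_const_pow_of_lt_one (r := (1 / 2 : ℝ)) (by norm_num) (by norm_num)
    refine this.congr fun n => ?_
    rw [one_div, inv_pow]; rfl
  have h2 : Tendsto (fun n : ℕ => (1 : ℝ) / 2 ^ n) atTop (𝓝 0) := by
    have := tendsto_pow_atTop_nhds_zero_of_lt_one (r := (1 / 2 : ℝ)) (by norm_num) (by norm_num)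
    refine this.congr fun n => ?_
    rw [one_div, inv_pow, one_div]
  have h3 := (h1.const_mul 2).add (h2.const_mul 6)
  simp only [mul_zero, add_zero] at h3
  refine h3.congr fun n => ?_
  unfold c
  ring

section abs

variable {Ω : Type*} [MeasurableSpace Ω] (μ : Measure Ω) [IsFiniteMeasure μ] {A : ℕ → Set Ω}
  (hA : ∀ m, MeasurableSet (A m))

include hA

/-- Bonferroni -/
lemma union_lower (N n : ℕ) :
    ∑ k ∈ Finset.range n, μ.real (A (N + k)) -
      ∑ k ∈ Finset.range n, ∑ j ∈ Finset.range k, μ.real (A (N + j) ∩ A (N + k)) ≤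
    μ.real (⋃ k ∈ Finset.range n, A (N + k)) := by
  induction n with
  | zero => simp
  | succ n ih =>
    rw [Finset.sum_range_succ, Finset.sum_range_succ]
    have e : (⋃ k ∈ Finset.range (n + 1), A (N + k)) =
        (⋃ k ∈ Finset.range n, A (N + k)) ∪ A (N + n) := by
      rw [Finset.range_add_one, Finset.set_biUnion_insert, Set.union_comm]
    rw [e]
    have h1 := measureReal_union_add_inter (μ := μ) (s := ⋃ k ∈ Finset.range n, A (N + k))
      (t := A (N + n)) (hA _) (measure_ne_top _ _) (measure_ne_top _ _)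
    have h2 : μ.real ((⋃ k ∈ Finset.range n, A (N + k)) ∩ A (N + n)) ≤
        ∑ j ∈ Finset.range n, μ.real (A (N + j) ∩ A (N + n)) := by
      have e2 : (⋃ k ∈ Finset.range n, A (N + k)) ∩ A (N + n) =
          ⋃ k ∈ Finset.range n, (A (N + k) ∩ A (N + n)) := by
        rw [Set.iUnion₂_inter]
      rw [e2]
      exact measureReal_biUnion_finset_le _ _
    linarith

omit hA in
lemma union_tendsto (N : ℕ) :
    Tendsto (fun n : ℕ => μ.real (⋃ k ∈ Finset.range n, A (N + k))) atTop
      (𝓝 (μ.real {x | ∃ m ≥ N, x ∈ A m})) := by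
  have hmono : Monotone (fun n : ℕ => ⋃ k ∈ Finset.range n, A (N + k)) := by
    intro i j hij
    refine Set.biUnion_subset_biUnion_left ?_
    intro x hx
    have : x < i := by simpa using hx
    have h2 : x < j := by omega
    simpa using h2
  have h := tendsto_measure_iUnion_atTop (μ := μ) hmono
  have e : (⋃ n : ℕ, ⋃ k ∈ Finset.range n, A (N + k)) = {x | ∃ m ≥ N, x ∈ A m} := by
    ext x
    simp only [Set.mem_iUnion, Set.mem_ofPred_eq, Finset.mem_range]
    constructor
    · rintro ⟨n, k, _, hx⟩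
      exact ⟨N + k, by omega, hx⟩
    · rintro ⟨m, hm, hx⟩
      refine ⟨m - N + 1, m - N, by omega, ?_⟩
      have : N + (m - N) = m := by omega
      rwa [this]
  rw [e] at h
  exact (ENNReal.tendsto_toReal (measure_ne_top _ _)).comp h

omit hA in
lemma pairs_tendsto (N : ℕ) :
    Tendsto (fun n : ℕ => μ.real (⋃ k ∈ Finset.range n, ⋃ j ∈ Finset.range k,
      (A (N + j) ∩ A (N + k)))) atTop
      (𝓝 (μ.real {x | ∃ m ≥ N, ∃ n > m, x ∈ A m ∧ x ∈ A n})) := by
  have hmono : Monotone (fun n : ℕ => ⋃ k ∈ Finset.range n, ⋃ j ∈ Finset.range k,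
      (A (N + j) ∩ A (N + k))) := by
    intro i j hij
    refine Set.biUnion_subset_biUnion_left ?_
    intro x hx
    have : x < i := by simpa using hx
    have h2 : x < j := by omega
    simpa using h2
  have h := tendsto_measure_iUnion_atTop (μ := μ) hmono
  have e : (⋃ n : ℕ, ⋃ k ∈ Finset.range n, ⋃ j ∈ Finset.range k, (A (N + j) ∩ A (N + k))) =
      {x | ∃ m ≥ N, ∃ n > m, x ∈ A m ∧ x ∈ A n} := by
    ext x
    simp only [Set.mem_iUnion, Set.mem_ofPred_eq, Finset.mem_range, Set.mem_inter_iff]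
    constructor
    · rintro ⟨n, k, _, j, hj, h1, h2⟩
      exact ⟨N + j, by omega, N + k, by omega, h1, h2⟩
    · rintro ⟨m, hm, n, hn, h1, h2⟩
      refine ⟨n - N + 1, n - N, by omega, m - N, by omega, ?_⟩
      have e1 : N + (m - N) = m := by omega
      have e2 : N + (n - N) = n := by omega
      rw [e1, e2]
      exact ⟨h1, h2⟩
  rw [e] at h
  exact (ENNReal.tendsto_toReal (measure_ne_top _ _)).comp h

/-- the pairs -/
lemma pairs_sum {K : ℝ} (hK : 0 < K) {M : ℕ}
    (hp : ∀ m ≥ M, ∀ n > m, μ.real (A m ∩ A n) ≤ K * (w m * w n)) {N : ℕ} (hN : M ≤ N) (n : ℕ) :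
    ∑ k ∈ Finset.range n, ∑ j ∈ Finset.range k, μ.real (A (N + j) ∩ A (N + k)) ≤ K * c N ^ 2 := by
  calc ∑ k ∈ Finset.range n, ∑ j ∈ Finset.range k, μ.real (A (N + j) ∩ A (N + k)) ≤
        ∑ k ∈ Finset.range n, ∑ j ∈ Finset.range k, K * (w (N + j) * w (N + k)) := by
        refine Finset.sum_le_sum fun k _ => Finset.sum_le_sum fun j hj => ?_
        rw [Finset.mem_range] at hj
        exact hp _ (by omega) _ (by omega)
    _ = ∑ k ∈ Finset.range n, K * w (N + k) * ∑ j ∈ Finset.range k, w (N + j) := by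
        refine Finset.sum_congr rfl fun k _ => ?_
        rw [Finset.mul_sum]
        refine Finset.sum_congr rfl fun j _ => ?_
        ring
    _ ≤ ∑ k ∈ Finset.range n, K * w (N + k) * c N := by
        refine Finset.sum_le_sum fun k _ => mul_le_mul_of_nonneg_left ?_ ?_
        · rw [sum_w]; linarith [c_pos (N + k)]
        · have := w_pos (N + k); positivity
    _ = K * c N * ∑ k ∈ Finset.range n, w (N + k) := by
        rw [Finset.mul_sum]
        refine Finset.sum_congr rfl fun k _ => ?_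
        ring
    _ ≤ K * c N * c N := by
        refine mul_le_mul_of_nonneg_left ?_ (by have := c_pos N; positivity)
        rw [sum_w]; linarith [c_pos (N + n)]
    _ = _ := by ring

lemma pairs_final {K : ℝ} (hK : 0 < K) {M : ℕ}
    (hp : ∀ m ≥ M, ∀ n > m, μ.real (A m ∩ A n) ≤ K * (w m * w n)) {N : ℕ} (hN : M ≤ N) :
    μ.real {x | ∃ m ≥ N, ∃ n > m, x ∈ A m ∧ x ∈ A n} ≤ K * c N ^ 2 := by
  refine le_of_tendsto (pairs_tendsto μ N) (Eventually.of_forall fun n => ?_)
  refine le_trans ?_ (pairs_sum μ hA hK hp hN n)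
  refine (measureReal_biUnion_finset_le _ _).trans ?_
  refine Finset.sum_le_sum fun k _ => ?_
  exact measureReal_biUnion_finset_le _ _

/-- the main asymptotic law, abstractly -/
theorem law {g K : ℝ} (hg : 0 < g) (hK : 0 < K) {M : ℕ}
    (hm : Tendsto (fun m : ℕ => μ.real (A m) / w m) atTop (𝓝 g))
    (hp : ∀ m ≥ M, ∀ n > m, μ.real (A m ∩ A n) ≤ K * (w m * w n)) :
    Tendsto (fun N : ℕ => μ.real {x | ∃ m ≥ N, x ∈ A m} / c N) atTop (𝓝 g) := by
  rw [Metric.tendsto_atTop]
  intro ε hε
  rw [Metric.tendsto_atTop] at hm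
  obtain ⟨M1, hM1⟩ := hm (ε / 4) (by positivity)
  have hc := c_tendsto
  rw [Metric.tendsto_atTop] at hc
  obtain ⟨M2, hM2⟩ := hc (ε / (4 * K)) (by positivity)
  refine ⟨M + M1 + M2, fun N hN => ?_⟩
  have hcN : 0 < c N := c_pos N
  have hcs : c N < ε / (4 * K) := by
    have := hM2 N (by omega)
    rwa [Real.dist_eq, sub_zero, abs_of_pos hcN] at this
  have hb : ∀ k : ℕ, (g - ε / 4) * w (N + k) ≤ μ.real (A (N + k)) ∧
      μ.real (A (N + k)) ≤ (g + ε / 4) * w (N + k) := by
    intro k
    have h1 := hM1 (N + k) (by omega)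
    rw [Real.dist_eq, abs_lt] at h1
    have h2 := w_pos (N + k)
    constructor
    · have : g - ε / 4 ≤ μ.real (A (N + k)) / w (N + k) := by linarith
      rwa [le_div_iff₀ h2] at this
    · have : μ.real (A (N + k)) / w (N + k) ≤ g + ε / 4 := by linarith
      rwa [div_le_iff₀ h2] at this
  have hup : μ.real {x | ∃ m ≥ N, x ∈ A m} ≤ (g + ε / 4) * c N := by
    refine le_of_tendsto (union_tendsto μ N) (Eventually.of_forall fun n => ?_)
    calc μ.real (⋃ k ∈ Finset.range n, A (N + k)) ≤ ∑ k ∈ Finset.range n, μ.real (A (N + k)) :=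
          measureReal_biUnion_finset_le _ _
      _ ≤ ∑ k ∈ Finset.range n, (g + ε / 4) * w (N + k) := Finset.sum_le_sum fun k _ => (hb k).2
      _ = (g + ε / 4) * (c N - c (N + n)) := by rw [← Finset.mul_sum, sum_w]
      _ ≤ _ := by
          refine mul_le_mul_of_nonneg_left ?_ (by positivity)
          linarith [c_pos (N + n)]
  have hlo : (g - ε / 4) * c N - K * c N ^ 2 ≤ μ.real {x | ∃ m ≥ N, x ∈ A m} := by
    have h1 : Tendsto (fun n : ℕ => (g - ε / 4) * (c N - c (N + n)) - K * c N ^ 2) atTop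
        (𝓝 ((g - ε / 4) * (c N - 0) - K * c N ^ 2)) := by
      have h2 : Tendsto (fun n : ℕ => c (N + n)) atTop (𝓝 0) := by
        have := c_tendsto.comp (tendsto_add_atTop_nat N)
        refine this.congr fun n => ?_
        simp only [Function.comp_apply, add_comm]
      exact ((tendsto_const_nhds.sub h2).const_mul _).sub_const _
    rw [sub_zero] at h1
    refine le_of_tendsto_of_tendsto' h1 (union_tendsto μ N) fun n => ?_
    have h3 := union_lower μ hA N n
    have h4 := pairs_sum μ hA hK hp (show M ≤ N by omega) n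
    have h5 : (g - ε / 4) * (c N - c (N + n)) ≤ ∑ k ∈ Finset.range n, μ.real (A (N + k)) := by
      rw [← sum_w, Finset.mul_sum]
      exact Finset.sum_le_sum fun k _ => (hb k).1
    linarith
  rw [Real.dist_eq, abs_lt]
  have hKc : K * c N < ε / 4 := by
    rw [lt_div_iff₀ (by positivity)] at hcs
    linarith
  constructor
  · have h1 : g - ε / 4 - K * c N ≤ μ.real {x | ∃ m ≥ N, x ∈ A m} / c N := by
      rw [le_div_iff₀ hcN]
      calc (g - ε / 4 - K * c N) * c N = (g - ε / 4) * c N - K * c N ^ 2 := by ring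
        _ ≤ _ := hlo
    linarith
  · have h1 : μ.real {x | ∃ m ≥ N, x ∈ A m} / c N ≤ g + ε / 4 := by
      rw [div_le_iff₀ hcN]; exact hup
    linarith

end abs

end Pool.Agent.U155.Fer
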