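import Mathlib
import Pool.Agent.U155.Fer.B

set_option autoImplicit false

/-!
# The Fermat numbers with an amplitude
-/

namespace Pool.Agent.U155.Fer

open Filter Topology MeasureTheory
open Pool.Agent.H305R2 (roughPart ff NN)

/-- the least integer larger than `β * 2 ^ (2 ^ m)`, and its rough part -/
noncomputable def W (β : ℝ) (m : ℕ) : ℕ := roughPart (2 ^ (m + 2)) (⌊β * 2 ^ 2 ^ m⌋₊ + 1)

lemma W_one {m : ℕ} (hm : 2 ≤ m) : W 1 m = Nat.fermatNumber m := by
  have e : ⌊(1 : ℝ) * 2 ^ 2 ^ m⌋₊ + 1 = Nat.fermatNumber m := by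
    rw [one_mul]
    have h : ((2 : ℝ) ^ 2 ^ m) = ((2 ^ 2 ^ m : ℕ) : ℝ) := by push_cast; rfl
    rw [h, Nat.floor_natCast]
    rfl
  unfold W roughPart
  rw [e]
  have hne : Nat.fermatNumber m ≠ 0 := by
    have := Nat.three_le_fermatNumber m
    omega
  have h1 : (Nat.fermatNumber m).primeFactorsList.filter (fun r => decide (2 ^ (m + 2) < r)) =
      (Nat.fermatNumber m).primeFactorsList := by
    rw [List.filter_eq_self]
    intro r hr
    have hrp := Nat.prime_of_mem_primeFactorsList hr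
    have hrd := Nat.dvd_of_mem_primeFactorsList hr
    obtain ⟨k, hk⟩ := Nat.fermat_primeFactors_one_lt m r (by omega) hrp hrd
    have hk0 : k ≠ 0 := by
      rintro rfl
      rw [hk] at hrp
      norm_num at hrp
    have hk1 : 1 ≤ k := Nat.one_le_iff_ne_zero.2 hk0
    have h2 : 2 ^ (m + 2) ≤ k * 2 ^ (m + 2) := Nat.le_mul_of_pos_left _ hk1
    simp only [decide_eq_true_eq]
    omega
  rw [h1, Nat.prod_primeFactorsList hne]

lemma exp_eq (m : ℕ) (u : ℝ) :
    Real.exp (a * ((2 ^ (m + 2) : ℕ) : ℝ) + u) = Real.exp u * 2 ^ 2 ^ m := by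
  have e : a * ((2 ^ (m + 2) : ℕ) : ℝ) = ((2 ^ m : ℕ) : ℝ) * Real.log 2 := by
    unfold a
    push_cast
    rw [pow_add]
    ring
  rw [e, add_comm, Real.exp_add, Real.exp_nat_mul, Real.exp_log (by norm_num)]

lemma ceil_of_not {x : ℝ} (hx : 0 ≤ x) (h : ∀ k : ℕ, x ≠ k) : ⌈x⌉₊ = ⌊x⌋₊ + 1 := by
  rw [Nat.ceil_eq_iff (by omega)]
  have h1 := Nat.floor_le hx
  have h2 := Nat.lt_floor_add_one x
  have h3 := h ⌊x⌋₊
  constructor
  · simp only [Nat.add_sub_cancel]
    exact lt_of_le_of_ne h1 (Ne.symm h3)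
  · push_cast
    exact h2.le

/-- good amplitudes -/
def Gd (u : ℝ) : Prop := ∀ m k : ℕ, Real.exp u * 2 ^ 2 ^ m ≠ k

lemma ae_good : ∀ᵐ u : ℝ, Gd u := by
  have h : ∀ m k : ℕ, ∀ᵐ u : ℝ, Real.exp u * 2 ^ 2 ^ m ≠ k := by
    intro m k
    have h1 : ({u : ℝ | ¬ (Real.exp u * 2 ^ 2 ^ m ≠ k)} : Set ℝ) ⊆
        {Real.log ((k : ℝ) / 2 ^ 2 ^ m)} := by
      intro u hu
      simp only [ne_eq, not_not, Set.mem_ofPred_eq] at hu
      simp only [Set.mem_singleton_iff]
      rw [← hu, mul_div_assoc, div_self (by positivity), mul_one, Real.log_exp]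
    rw [ae_iff]
    exact measure_mono_null h1 (by simp)
  unfold Gd
  rw [ae_all_iff]
  intro m
  rw [ae_all_iff]
  exact h m

open Classical in
lemma f_eq {u : ℝ} (hu : Gd u) (m : ℕ) :
    f m u = if (W (Real.exp u) m).Prime then 1 else 0 := by
  unfold f ff W
  have e : NN (y (2 ^ (m + 2)) u) = ⌊Real.exp u * 2 ^ 2 ^ m⌋₊ + 1 := by
    unfold NN y
    rw [Real.exp_log (by positivity), exp_eq]
    have h0 : (0 : ℝ) ≤ Real.exp u * 2 ^ 2 ^ m := by positivity
    rw [Nat.ceil_add_one h0, Nat.add_sub_cancel, ceil_of_not h0 (hu m)]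
  rw [e]

/-- the events -/
def A (m : ℕ) : Set ℝ := {u | (W (Real.exp u) m).Prime}

lemma measurable_W (m : ℕ) : Measurable (fun u : ℝ => W (Real.exp u) m) := by
  unfold W
  have h1 : Measurable (fun u : ℝ => ⌊Real.exp u * 2 ^ 2 ^ m⌋₊) :=
    Nat.measurable_floor.comp (Real.measurable_exp.mul_const _)
  exact (measurable_from_nat (f := fun n : ℕ => roughPart (2 ^ (m + 2)) (n + 1))).comp h1

lemma measurableSet_A (m : ℕ) : MeasurableSet (A m) :=
  (measurable_W m) (MeasurableSet.of_discrete (s := {n : ℕ | n.Prime}))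

lemma f_ind (m : ℕ) : ∀ᵐ u : ℝ, f m u = (A m).indicator (fun _ => (1 : ℝ)) u := by
  classical
  filter_upwards [ae_good] with u hu
  rw [f_eq hu, Set.indicator_apply]
  by_cases h : (W (Real.exp u) m).Prime
  · rw [if_pos h, if_pos (show u ∈ A m from h)]
  · rw [if_neg h, if_neg (show u ∉ A m from h)]

lemma real_A (m : ℕ) (s t : ℝ) : (volume.restrict (Set.Ioc s t)).real (A m) =
    ∫ u in Set.Ioc s t, f m u := by
  rw [integral_congr_ae (ae_restrict_of_ae (f_ind m)), integral_indicator (measurableSet_A m),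
    integral_const]
  simp [measureReal_restrict_apply (measurableSet_A m)]

lemma real_AA (m n : ℕ) (s t : ℝ) : (volume.restrict (Set.Ioc s t)).real (A m ∩ A n) =
    ∫ u in Set.Ioc s t, f m u * f n u := by
  have h : ∀ᵐ u : ℝ, f m u * f n u = (A m ∩ A n).indicator (fun _ => (1 : ℝ)) u := by
    filter_upwards [f_ind m, f_ind n] with u h1 h2
    rw [h1, h2]
    by_cases hm : u ∈ A m <;> by_cases hn : u ∈ A n <;> simp [hm, hn]
  rw [integral_congr_ae (ae_restrict_of_ae h),
    integral_indicator ((measurableSet_A m).inter (measurableSet_A n)), integral_const]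
  simp [measureReal_restrict_apply ((measurableSet_A m).inter (measurableSet_A n))]

theorem law_all {s t : ℝ} (hst : s < t) :
    Tendsto (fun N : ℕ => (volume.restrict (Set.Ioc s t)).real {u | ∃ m ≥ N, u ∈ A m} / c N) atTop
      (𝓝 (Real.exp Real.eulerMascheroniConstant * (t - s))) := by
  obtain ⟨K, hK, M, hM⟩ := pair_bound s t hst
  have hg : 0 < Real.exp Real.eulerMascheroniConstant * (t - s) :=
    mul_pos (Real.exp_pos _) (by linarith)
  refine law (volume.restrict (Set.Ioc s t)) measurableSet_A hg hK (M := M) ?_ ?_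
  · refine (mean_all hst).congr fun m => ?_
    rw [real_A]
  · intro m hm n hn
    rw [real_AA]
    exact hM m hm n hn

theorem pairs_all {s t : ℝ} (hst : s < t) :
    ∃ K : ℝ, ∀ᶠ N : ℕ in atTop, (volume.restrict (Set.Ioc s t)).real
      {u | ∃ m ≥ N, ∃ n > m, u ∈ A m ∧ u ∈ A n} ≤ K * c N ^ 2 := by
  obtain ⟨K, hK, M, hM⟩ := pair_bound s t hst
  refine ⟨K, ?_⟩
  filter_upwards [eventually_ge_atTop M] with N hN
  refine pairs_final (volume.restrict (Set.Ioc s t)) measurableSet_A hK (M := M) ?_ hN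
  intro m hm n hn
  rw [real_AA]
  exact hM m hm n hn

lemma freq_null {s t : ℝ} (hst : s < t) :
    volume ({u | ∃ᶠ m : ℕ in atTop, u ∈ A m} ∩ Set.Ioc s t) = 0 := by
  have h := law_all hst
  have h2 := h.mul c_tendsto
  rw [mul_zero] at h2
  have h3 : Tendsto (fun N : ℕ => (volume.restrict (Set.Ioc s t)).real {u | ∃ m ≥ N, u ∈ A m}) atTop
      (𝓝 0) := by
    refine h2.congr fun N => ?_
    have := (c_pos N).ne'
    field_simp
  have h4 : (volume.restrict (Set.Ioc s t)).real {u | ∃ᶠ m : ℕ in atTop, u ∈ A m} ≤ 0 := by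
    refine ge_of_tendsto h3 (Eventually.of_forall fun N => ?_)
    refine measureReal_mono ?_ (measure_ne_top _ _)
    intro u hu
    rw [Set.mem_ofPred_eq, frequently_atTop] at hu
    obtain ⟨m, hm, h⟩ := hu N
    exact ⟨m, hm, h⟩
  have h5 : (volume.restrict (Set.Ioc s t)).real {u | ∃ᶠ m : ℕ in atTop, u ∈ A m} = 0 :=
    le_antisymm h4 measureReal_nonneg
  rw [measureReal_eq_zero_iff (measure_ne_top _ _), Measure.restrict_apply' measurableSet_Ioc] at h5
  exact h5

lemma ae_fin : ∀ᵐ u : ℝ, ¬ ∃ᶠ m : ℕ in atTop, u ∈ A m := by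
  rw [ae_iff]
  simp only [not_not]
  have h1 : {u : ℝ | ∃ᶠ m : ℕ in atTop, u ∈ A m} ⊆
      ⋃ k : ℤ, ({u | ∃ᶠ m : ℕ in atTop, u ∈ A m} ∩ Set.Ioc (k : ℝ) (k + 1)) := by
    intro u hu
    rw [Set.mem_iUnion]
    refine ⟨⌈u⌉ - 1, hu, ?_, ?_⟩
    · push_cast
      linarith [Int.ceil_lt_add_one u]
    · push_cast
      linarith [Int.le_ceil u]
  refine measure_mono_null h1 ?_
  rw [measure_iUnion_null_iff]
  intro k
  exact freq_null (by linarith)

/-- the coordinate change -/
lemma ae_of_exp {P : ℝ → Prop} (h : ∀ᵐ t : ℝ, P (Real.exp t)) : ∀ᵐ x : ℝ, 0 < x → P x := by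
  rw [ae_iff] at h ⊢
  have h1 : volume (Real.exp '' {t : ℝ | ¬ P (Real.exp t)}) = 0 :=
    addHaar_image_eq_zero_of_differentiableOn_of_addHaar_eq_zero volume
      Real.differentiable_exp.differentiableOn h
  refine measure_mono_null ?_ h1
  intro x hx
  simp only [Set.mem_ofPred_eq, Classical.not_imp] at hx
  refine ⟨Real.log x, ?_, Real.exp_log hx.1⟩
  simp only [Set.mem_ofPred_eq]
  rw [Real.exp_log hx.1]
  exact hx.2

theorem ae_finite : ∀ᵐ β : ℝ, 0 < β → {m : ℕ | (W β m).Prime}.Finite := by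
  refine ae_of_exp (P := fun β => {m : ℕ | (W β m).Prime}.Finite) ?_
  filter_upwards [ae_fin] with u hu
  rw [← Set.not_infinite]
  rw [Nat.frequently_atTop_iff_infinite] at hu
  exact hu

/-- the open sets of the generic statement -/
def U (N : ℕ) : Set ℝ := {β | β < 0} ∪ ⋃ m ∈ Set.Ici N, ⋃ k ∈ {k : ℕ | (roughPart (2 ^ (m + 2)) (k + 1)).Prime},
  {β : ℝ | (k : ℝ) < β * 2 ^ 2 ^ m ∧ β * 2 ^ 2 ^ m < k + 1}

lemma U_open (N : ℕ) : IsOpen (U N) := by
  refine (isOpen_Iio (a := (0 : ℝ))).union ?_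
  refine isOpen_biUnion fun m _ => isOpen_biUnion fun k _ => ?_
  have h1 : Continuous (fun β : ℝ => β * 2 ^ 2 ^ m) := by fun_prop
  exact (isOpen_lt continuous_const h1).inter (isOpen_lt h1 continuous_const)

lemma U_dense (N : ℕ) : Dense (U N) := by
  rw [dense_iff_inter_open]
  intro O hO ⟨x, hx⟩
  rcases lt_or_ge x 0 with h0 | h0
  · exact ⟨x, hx, Or.inl h0⟩
  · -- a window of positive amplitudes
    obtain ⟨ε, hε, hball⟩ := Metric.isOpen_iff.1 hO x hx
    have hs : Real.log (x + ε / 4) < Real.log (x + ε / 2) :=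
      Real.log_lt_log (by linarith) (by linarith)
    have h := law_all hs
    have hg : 0 < Real.exp Real.eulerMascheroniConstant *
        (Real.log (x + ε / 2) - Real.log (x + ε / 4)) := mul_pos (Real.exp_pos _) (by linarith)
    obtain ⟨n, hn1, hn2⟩ := ((h.eventually_const_lt hg).and (eventually_ge_atTop N)).exists
    have hpos : 0 < (volume.restrict (Set.Ioc (Real.log (x + ε / 4)) (Real.log (x + ε / 2)))).real
        {u | ∃ m ≥ n, u ∈ A m} := by
      by_contra hc
      have h0' : (volume.restrict (Set.Ioc (Real.log (x + ε / 4)) (Real.log (x + ε / 2)))).real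
        {u | ∃ m ≥ n, u ∈ A m} = 0 := le_antisymm (not_lt.1 hc) measureReal_nonneg
      rw [h0', zero_div] at hn1
      exact lt_irrefl _ hn1
    have hne : ((({u | ∃ m ≥ n, u ∈ A m} ∩ {u | Gd u}) ∩
        Set.Ioc (Real.log (x + ε / 4)) (Real.log (x + ε / 2)))).Nonempty := by
      rw [Set.nonempty_iff_ne_empty]
      intro hempty
      have h1 : (volume.restrict (Set.Ioc (Real.log (x + ε / 4)) (Real.log (x + ε / 2))))
          {u | ∃ m ≥ n, u ∈ A m} = 0 := by
        rw [Measure.restrict_apply' measurableSet_Ioc]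
        refine measure_mono_null (t := {u | ¬ Gd u}) ?_ (ae_iff.1 ae_good)
        intro u hu
        by_contra hgu
        simp only [Set.mem_ofPred_eq, not_not] at hgu
        have : u ∈ (({u | ∃ m ≥ n, u ∈ A m} ∩ {u | Gd u}) ∩
          Set.Ioc (Real.log (x + ε / 4)) (Real.log (x + ε / 2))) := ⟨⟨hu.1, hgu⟩, hu.2⟩
        rw [hempty] at this
        exact this
      rw [measureReal_def, h1] at hpos
      simp at hpos
    obtain ⟨u, ⟨⟨m, hm, hA⟩, hGd⟩, hu1, hu2⟩ := hne
    have hx1 : x + ε / 4 < Real.exp u := by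
      rwa [← Real.log_lt_iff_lt_exp (by linarith)]
    have hx2 : Real.exp u ≤ x + ε / 2 := by
      rwa [← Real.le_log_iff_exp_le (by linarith)]
    refine ⟨Real.exp u, hball ?_, Or.inr ?_⟩
    · rw [Metric.mem_ball, Real.dist_eq, abs_lt]
      constructor <;> linarith
    · simp only [Set.mem_iUnion]
      refine ⟨m, show N ≤ m by omega, ⌊Real.exp u * 2 ^ 2 ^ m⌋₊, hA, ?_, ?_⟩
      · exact lt_of_le_of_ne (Nat.floor_le (by positivity)) (Ne.symm (hGd m _))
      · exact Nat.lt_floor_add_one _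

theorem residual_infinite : ∀ᶠ β : ℝ in residual ℝ, 0 < β → {m : ℕ | (W β m).Prime}.Infinite := by
  have h : ∀ᶠ β : ℝ in residual ℝ, ∀ N : ℕ, β ∈ U N := by
    rw [eventually_countable_forall]
    intro N
    exact residual_of_dense_open (U_open N) (U_dense N)
  filter_upwards [h] with β hβ h0
  rw [← Nat.frequently_atTop_iff_infinite, frequently_atTop]
  intro N
  rcases hβ N with h1 | h1
  · exact absurd h1 (not_lt.2 h0.le)
  · simp only [Set.mem_iUnion] at h1
    obtain ⟨m, hm, k, hk, h2, h3⟩ := h1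
    refine ⟨m, hm, ?_⟩
    have e : ⌊β * 2 ^ 2 ^ m⌋₊ = k := by
      rw [Nat.floor_eq_iff (by positivity)]
      exact ⟨h2.le, h3⟩
    unfold W
    rw [e]
    exact hk

end Pool.Agent.U155.Fer
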