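import Mathlib
import Pool.Agent.U155.Fer.C

set_option autoImplicit false

/-!
# The numbers `n ^ n + 1`, `n = 2 ^ (2 ^ k)`, with an amplitude
-/

namespace Pool.Agent.U155.Fer.SP

open Filter Topology MeasureTheory
open Pool.Agent.U155.Fer
open Pool.Agent.H305R2 (roughPart)

/-- `n ^ n = 2 ^ (2 ^ (mk k))` for `n = 2 ^ (2 ^ k)` -/
def mk (k : ℕ) : ℕ := k + 2 ^ k

lemma mk_lt {k l : ℕ} (h : k < l) : mk k < mk l := by
  unfold mk
  have := Nat.pow_le_pow_right (show 0 < 2 by norm_num) h.le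
  omega

lemma mk_strict : StrictMono mk := fun _ _ h => mk_lt h

lemma mk_le {k l : ℕ} (h : k ≤ l) : mk k ≤ mk l := mk_strict.monotone h

lemma mk_tendsto : Tendsto mk atTop atTop := mk_strict.tendsto_atTop

lemma ratio_le (K : ℕ) : c (mk (K + 1)) / w (mk K) ≤ 8 / 2 ^ K := by
  have hw := w_pos (mk K)
  rw [div_le_iff₀ hw]
  unfold c w mk
  have h2 : (2 : ℝ) ^ (K + 1 + 2 ^ (K + 1)) = 2 * 2 ^ (2 ^ K) * (2 ^ (K + 2 ^ K)) := by
    rw [show K + 1 + 2 ^ (K + 1) = 1 + 2 ^ K + (K + 2 ^ K) by ring, pow_add, pow_add, pow_one]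
  rw [h2]
  have h3 : (0 : ℝ) < 2 ^ (K + 2 ^ K) := by positivity
  have h4 : (0 : ℝ) < 2 ^ (2 ^ K) := by positivity
  have h5 : ((2 : ℝ) ^ K) ≤ 2 ^ (2 ^ K) :=
    pow_le_pow_right₀ (by norm_num) (Nat.lt_two_pow_self.le)
  have h6 : (1 : ℝ) ≤ 2 ^ K := one_le_pow₀ (by norm_num)
  have h7 : ((K + 1 + 2 ^ (K + 1) : ℕ) : ℝ) + 3 ≤ 4 * (((K + 2 ^ K : ℕ) : ℝ) + 2) := by
    push_cast
    rw [pow_succ]
    have : (0 : ℝ) ≤ K := Nat.cast_nonneg K
    linarith
  have h8 : (0 : ℝ) ≤ ((K + 2 ^ K : ℕ) : ℝ) + 2 := by positivity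
  calc (((K + 1 + 2 ^ (K + 1) : ℕ) : ℝ) + 3) * 2 / (2 * 2 ^ (2 ^ K) * 2 ^ (K + 2 ^ K))
      = ((((K + 1 + 2 ^ (K + 1) : ℕ) : ℝ) + 3) / 2 ^ (2 ^ K)) / 2 ^ (K + 2 ^ K) := by
        field_simp
    _ ≤ ((4 * (((K + 2 ^ K : ℕ) : ℝ) + 2)) / 2 ^ K) / 2 ^ (K + 2 ^ K) := by
        gcongr
    _ ≤ 8 / 2 ^ K * ((((K + 2 ^ K : ℕ) : ℝ) + 2) / 2 ^ (K + 2 ^ K)) := by
        rw [show 8 / (2 : ℝ) ^ K * ((((K + 2 ^ K : ℕ) : ℝ) + 2) / 2 ^ (K + 2 ^ K)) =
          ((8 * (((K + 2 ^ K : ℕ) : ℝ) + 2)) / 2 ^ K) / 2 ^ (K + 2 ^ K) by ring]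
        gcongr
        norm_num

lemma ratio_tendsto : Tendsto (fun K => c (mk (K + 1)) / w (mk K)) atTop (𝓝 0) := by
  have h1 : Tendsto (fun K : ℕ => (8 : ℝ) / 2 ^ K) atTop (𝓝 0) := by
    have := (tendsto_pow_atTop_nhds_zero_of_lt_one (r := (1 / 2 : ℝ)) (by norm_num)
      (by norm_num)).const_mul 8
    rw [mul_zero] at this
    refine this.congr fun K => ?_
    rw [one_div, inv_pow]
    rfl
  exact squeeze_zero (fun K => div_nonneg (c_pos _).le (w_pos _).le) ratio_le h1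

theorem law_sub {s t : ℝ} (hst : s < t) :
    Tendsto (fun K : ℕ => (volume.restrict (Set.Ioc s t)).real {u | ∃ k ≥ K, u ∈ A (mk k)} /
      w (mk K)) atTop (𝓝 (Real.exp Real.eulerMascheroniConstant * (t - s))) := by
  have h1 : Tendsto (fun m : ℕ => (volume.restrict (Set.Ioc s t)).real (A m) / w m) atTop
      (𝓝 (Real.exp Real.eulerMascheroniConstant * (t - s))) :=
    (mean_all hst).congr fun m => by rw [real_A]
  have h2 := h1.comp mk_tendsto
  have h3 := (law_all hst).comp (mk_tendsto.comp (tendsto_add_atTop_nat 1))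
  have h4 := h2.add (h3.mul ratio_tendsto)
  rw [mul_zero, add_zero] at h4
  refine tendsto_of_tendsto_of_tendsto_of_le_of_le h2 h4 (fun K => ?_) (fun K => ?_)
  · have hw := w_pos (mk K)
    simp only [Function.comp_apply]
    refine div_le_div_of_nonneg_right (measureReal_mono (μ := volume.restrict (Set.Ioc s t))
      (s₁ := A (mk K)) (s₂ := {u | ∃ k ≥ K, u ∈ A (mk k)}) ?_ (measure_ne_top _ _)) hw.le
    intro u hu
    exact ⟨K, le_rfl, hu⟩
  · have hw := w_pos (mk K)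
    have hc := c_pos (mk (K + 1))
    simp only [Function.comp_apply]
    have e : ∀ X : ℝ, X / c (mk (K + 1)) * (c (mk (K + 1)) / w (mk K)) = X / w (mk K) := by
      intro X
      field_simp
    rw [e, ← add_div]
    gcongr
    refine le_trans (measureReal_mono (μ := volume.restrict (Set.Ioc s t))
      (s₂ := A (mk K) ∪ {u | ∃ m ≥ mk (K + 1), u ∈ A m}) ?_ (measure_ne_top _ _))
      (measureReal_union_le _ _)
    rintro u ⟨k, hk, hu⟩
    rcases hk.lt_or_eq with h5 | h5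
    · exact Or.inr ⟨mk k, mk_le h5, hu⟩
    · left
      rw [h5]
      exact hu

theorem pairs_sub {s t : ℝ} (hst : s < t) :
    ∃ C : ℝ, ∀ᶠ K : ℕ in atTop, (volume.restrict (Set.Ioc s t)).real
      {u | ∃ k ≥ K, ∃ l > k, u ∈ A (mk k) ∧ u ∈ A (mk l)} ≤ C * w (mk K) ^ 2 := by
  obtain ⟨C, hC⟩ := pairs_all hst
  refine ⟨|C| * 16, ?_⟩
  filter_upwards [mk_tendsto.eventually hC] with K hK
  refine (measureReal_mono (?_ : _ ⊆ {u | ∃ m ≥ mk K, ∃ n > m, u ∈ A m ∧ u ∈ A n})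
    (measure_ne_top _ _)).trans (hK.trans ?_)
  · rintro u ⟨k, hk, l, hl, h1, h2⟩
    exact ⟨mk k, mk_le hk, mk l, mk_lt hl, h1, h2⟩
  · have h1 : c (mk K) ≤ 4 * w (mk K) := by
      unfold c w
      rw [mul_div_assoc', div_le_div_iff_of_pos_right (by positivity)]
      have : (0 : ℝ) ≤ (mk K : ℕ) := Nat.cast_nonneg _
      linarith
    have h2 := c_pos (mk K)
    calc C * c (mk K) ^ 2 ≤ |C| * c (mk K) ^ 2 := by
          gcongr
          exact le_abs_self C
      _ ≤ |C| * (4 * w (mk K)) ^ 2 := by gcongr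
      _ = |C| * 16 * w (mk K) ^ 2 := by ring

theorem ae_finite_sub : ∀ᵐ β : ℝ, 0 < β → {k : ℕ | (W β (mk k)).Prime}.Finite := by
  filter_upwards [ae_finite] with β hβ h0
  exact Set.Finite.preimage (f := mk) (s := {m : ℕ | (W β m).Prime}) mk_strict.injective.injOn
    (hβ h0)

/-- the open sets of the generic statement -/
def U (N : ℕ) : Set ℝ := {β | β < 0} ∪ ⋃ l ∈ Set.Ici N,
  ⋃ k ∈ {k : ℕ | (roughPart (2 ^ (mk l + 2)) (k + 1)).Prime},
  {β : ℝ | (k : ℝ) < β * 2 ^ 2 ^ mk l ∧ β * 2 ^ 2 ^ mk l < k + 1}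

lemma U_open (N : ℕ) : IsOpen (U N) := by
  refine (isOpen_Iio (a := (0 : ℝ))).union ?_
  refine isOpen_biUnion fun l _ => isOpen_biUnion fun k _ => ?_
  have h1 : Continuous (fun β : ℝ => β * 2 ^ 2 ^ mk l) := by fun_prop
  exact (isOpen_lt continuous_const h1).inter (isOpen_lt h1 continuous_const)

lemma U_dense (N : ℕ) : Dense (U N) := by
  rw [dense_iff_inter_open]
  intro O hO ⟨x, hx⟩
  rcases lt_or_ge x 0 with h0 | h0
  · exact ⟨x, hx, Or.inl h0⟩
  · -- a window of positive amplitudes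
    obtain ⟨ε, hε, hball⟩ := Metric.isOpen_iff.1 hO x hx
    have hs : Real.log (x + ε / 4) < Real.log (x + ε / 2) :=
      Real.log_lt_log (by linarith) (by linarith)
    have h := law_sub hs
    have hg : 0 < Real.exp Real.eulerMascheroniConstant *
        (Real.log (x + ε / 2) - Real.log (x + ε / 4)) := mul_pos (Real.exp_pos _) (by linarith)
    obtain ⟨n, hn1, hn2⟩ := ((h.eventually_const_lt hg).and (eventually_ge_atTop N)).exists
    have hpos : 0 < (volume.restrict (Set.Ioc (Real.log (x + ε / 4)) (Real.log (x + ε / 2)))).real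
        {u | ∃ k ≥ n, u ∈ A (mk k)} := by
      by_contra hc
      have h0' : (volume.restrict (Set.Ioc (Real.log (x + ε / 4)) (Real.log (x + ε / 2)))).real
        {u | ∃ k ≥ n, u ∈ A (mk k)} = 0 := le_antisymm (not_lt.1 hc) measureReal_nonneg
      rw [h0', zero_div] at hn1
      exact lt_irrefl _ hn1
    have hne : ((({u | ∃ k ≥ n, u ∈ A (mk k)} ∩ {u | Gd u}) ∩
        Set.Ioc (Real.log (x + ε / 4)) (Real.log (x + ε / 2)))).Nonempty := by
      rw [Set.nonempty_iff_ne_empty]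
      intro hempty
      have h1 : (volume.restrict (Set.Ioc (Real.log (x + ε / 4)) (Real.log (x + ε / 2))))
          {u | ∃ k ≥ n, u ∈ A (mk k)} = 0 := by
        rw [Measure.restrict_apply' measurableSet_Ioc]
        refine measure_mono_null (t := {u | ¬ Gd u}) ?_ (ae_iff.1 ae_good)
        intro u hu
        by_contra hgu
        simp only [Set.mem_ofPred_eq, not_not] at hgu
        have : u ∈ (({u | ∃ k ≥ n, u ∈ A (mk k)} ∩ {u | Gd u}) ∩
          Set.Ioc (Real.log (x + ε / 4)) (Real.log (x + ε / 2))) := ⟨⟨hu.1, hgu⟩, hu.2⟩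
        rw [hempty] at this
        exact this
      rw [measureReal_def, h1] at hpos
      simp at hpos
    obtain ⟨u, ⟨⟨m, hm, hA⟩, hGd⟩, hu1, hu2⟩ := hne
    have hx1 : x + ε / 4 < Real.exp u := by
      rwa [← Real.log_lt_iff_lt_exp (by linarith)]
    have hx2 : Real.exp u ≤ x + ε / 2 := by
      rwa [← Real.le_log_iff_exp_le (by linarith)]
    refine ⟨Real.exp u, hball ?_, Or.inr ?_⟩
    · rw [Metric.mem_ball, Real.dist_eq, abs_lt]
      constructor <;> linarith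
    · simp only [Set.mem_iUnion]
      refine ⟨m, show N ≤ m by omega, ⌊Real.exp u * 2 ^ 2 ^ mk m⌋₊, hA, ?_, ?_⟩
      · exact lt_of_le_of_ne (Nat.floor_le (by positivity)) (Ne.symm (hGd _ _))
      · exact Nat.lt_floor_add_one _

theorem residual_infinite : ∀ᶠ β : ℝ in residual ℝ,
    0 < β → {k : ℕ | (W β (mk k)).Prime}.Infinite := by
  have h : ∀ᶠ β : ℝ in residual ℝ, ∀ N : ℕ, β ∈ U N := by
    rw [eventually_countable_forall]
    intro N
    exact residual_of_dense_open (U_open N) (U_dense N)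
  filter_upwards [h] with β hβ h0
  rw [← Nat.frequently_atTop_iff_infinite, frequently_atTop]
  intro N
  rcases hβ N with h1 | h1
  · exact absurd h1 (not_lt.2 h0.le)
  · simp only [Set.mem_iUnion] at h1
    obtain ⟨m, hm, k, hk, h2, h3⟩ := h1
    refine ⟨m, hm, ?_⟩
    have e : ⌊β * 2 ^ 2 ^ mk m⌋₊ = k := by
      rw [Nat.floor_eq_iff (by positivity)]
      exact ⟨h2.le, h3⟩
    show (W β (mk m)).Prime
    unfold W
    rw [e]
    exact hk

lemma W_one_sub {k : ℕ} (hk : 1 ≤ k) : W 1 (mk k) = (2 ^ 2 ^ k) ^ (2 ^ 2 ^ k) + 1 := by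
  have h1 : 2 ≤ mk k := by
    unfold mk
    have := Nat.one_le_two_pow (n := k)
    omega
  rw [W_one h1]
  unfold Nat.fermatNumber mk
  rw [← pow_mul, pow_add]

end Pool.Agent.U155.Fer.SP
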